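import Mathlib

/-!
# Locality of single-orbit characterizations: lower and upper bounds

`K` is a finite extension of the finite field `F`; a property is a set of functions `K → F`. For an
affine-invariant property `P` let `k'(P)` be the least locality of a single-orbit characterization.

* Lower bound. For all `t > 0` and `u` there is an affine-invariant property of functions
  `𝔽_{2^t} → 𝔽₂` with a `2^(2u+1)`-local characterization and `k'(P) ≥ choose (⌊ω(t)/2⌋) u`, where
  `ω(t)` is the number of prime divisors of `t`. (`lower_main`)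
* Upper bound. If `P` has a `k`-local characterization and `|K| = p^n`, then
  `k'(P) ≤ k ((n + 1)^(k-2) + 1)`. (`upper_main`)

Lower bound, idea. For each prime divisor `q_i` of `t` let `ω_i` generate the subfield with `2^{q_i}`
elements, and let `ρ_i` be a power of the Frobenius fixing all `ω_j` with `j ≠ i`, but not `ω_i`. For a
set `T` of `2u` indices, the vanishing of the iterated differences in the directions
`b, ω_i b (i ∈ T)` is a `2^(2u+1)`-local condition. It is satisfied by all functions of smaller degree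
and, among the functions `Tr (c x ∏_{i ∈ U} ρ_i x)` with `|U| = 2u`, it excludes `U = T` only. Split
the indices into two halves, and use the sets `T = S ∪ S'` with `S` a `u`-subset of the first half and
`S'` its copy in the second half. If there are fewer than `choose r u` points `α_i`, then the vectors
`(∏_{j ∈ S} ρ_j (α_i))_i` are dependent, so that on these points some excluded function, and all its
compositions with affine maps, agree with members of the property.

Upper bound, idea. For a tuple `α` of points let `Q_α` be the space of all functions all of whose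
affine images agree on `α` with a member of `P`. If `Q_α` is not everything, there is a linear
relation `∑ μ_a f (a x + y) = 0` with at most `k` terms, valid for `f ∈ Q_α`, `x ≠ 0`. Eliminating its
terms one by one shows that all `(k-1)`-fold differences of `f` vanish (if `|K| > 2^(k-1)`). So
`dim Q_α ≤ (n+1)^(k-2)`, and a strictly decreasing chain of spaces `Q_α ⊋ Q_{αβ} ⊋ …` reaches `P`
after at most that many steps.
-/

set_option autoImplicit false

namespace Pool.Agent.Results.MP_cb1103_lc.SingleOrbitBounds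

/-! ## Definitions -/

/-- A `k`-local constraint: `k` points of `K` and a proper subset `S` of `F^k`. -/
structure Constraint (F K : Type) (k : ℕ) where
  pts : Fin k → K
  S : Set (Fin k → F)
  proper : S ≠ Set.univ

/-- `f` satisfies the constraint. -/
def Constraint.Sat {F K : Type} {k : ℕ} (C : Constraint F K k) (f : K → F) : Prop :=
  (fun i => f (C.pts i)) ∈ C.S

/-- The constraint `C ∘ π` for the affine map `π x = a x + b`. -/
def Constraint.comp {F K : Type} [Field K] {k : ℕ} (C : Constraint F K k) (a b : K) :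
    Constraint F K k where
  pts i := a * C.pts i + b
  S := C.S
  proper := C.proper

/-- `P` is an `F`-linear subspace, closed under composition with affine maps. -/
structure AffineInvariant {F K : Type} [Field F] [Field K] (P : Set (K → F)) : Prop where
  linear : ∃ V : Submodule F (K → F), (V : Set (K → F)) = P
  invariant : ∀ f ∈ P, ∀ a b : K, a ≠ 0 → (fun x => f (a * x + b)) ∈ P

/-- `P` has a `k`-local characterization. -/
def HasLocalChar {F K : Type} (k : ℕ) (P : Set (K → F)) : Prop :=
  ∃ 𝒞 : Set (Constraint F K k), ∀ f, f ∈ P ↔ ∀ C ∈ 𝒞, C.Sat f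

/-- `P` has a `k`-single orbit characterization. -/
def HasSingleOrbitChar {F K : Type} [Field K] (k : ℕ) (P : Set (K → F)) : Prop :=
  ∃ C : Constraint F K k, ∀ f, f ∈ P ↔ ∀ a b : K, a ≠ 0 → (C.comp a b).Sat f

/-- The least `k'` such that `P` has a `k'`-single orbit characterization. -/
noncomputable def kPrime {F K : Type} [Field K] (P : Set (K → F)) : ℕ :=
  sInf {k | HasSingleOrbitChar k P}

/-! ## Iterated differences -/

section Diff

variable {M K : Type} [AddCommGroup M] [Field K]

/-- iterated difference -/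
def Dl : List K → (K → M) → K → M
  | [], f => f
  | d :: ds, f => Dl ds (fun z => f (z + d) - f z)

theorem Dl_zero : ∀ (ds : List K) (z : K), Dl ds (fun _ => (0 : M)) z = 0
  | [], z => rfl
  | d :: ds, z => by
    simp only [Dl, sub_self]
    exact Dl_zero ds z

theorem Dl_append : ∀ (l₁ l₂ : List K) (f : K → M), Dl (l₁ ++ l₂) f = Dl l₂ (Dl l₁ f)
  | [], l₂, f => rfl
  | d :: ds, l₂, f => by
    simp only [List.cons_append, Dl]
    exact Dl_append ds l₂ _

theorem Dl_hom {M' : Type} [AddCommGroup M'] (T : M →+ M') : ∀ (ds : List K) (f : K → M) (z : K),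
    Dl ds (fun w => T (f w)) z = T (Dl ds f z)
  | [], f, z => rfl
  | d :: ds, f, z => by
    simp only [Dl]
    rw [← Dl_hom T ds]
    congr 1
    funext w
    rw [map_sub]

theorem Dl_add : ∀ (ds : List K) (f g : K → M) (z : K),
    Dl ds (fun w => f w + g w) z = Dl ds f z + Dl ds g z
  | [], f, g, z => rfl
  | d :: ds, f, g, z => by
    simp only [Dl]
    rw [← Dl_add ds]
    congr 1
    funext w
    rw [add_sub_add_comm]

theorem Dl_congr : ∀ (ds : List K) (f g : K → M) (z : K)
    (_ : ∀ I : List K, I.Sublist ds → f (z + I.sum) = g (z + I.sum)), Dl ds f z = Dl ds g z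
  | [], f, g, z, h => by simpa [Dl] using h [] (List.Sublist.refl _)
  | d :: ds, f, g, z, h => by
    simp only [Dl]
    apply Dl_congr ds
    intro I hI
    have h1 := h (d :: I) (hI.cons_cons _)
    have h2 := h I (hI.cons _)
    rw [List.sum_cons] at h1
    rw [show z + I.sum + d = z + (d + I.sum) by ring, h1, h2]

theorem Dl_affine (a b : K) : ∀ (ds : List K) (f : K → M) (z : K),
    Dl ds (fun w => f (a * w + b)) z = Dl (ds.map (a * ·)) f (a * z + b)
  | [], f, z => rfl
  | d :: ds, f, z => by
    simp only [Dl, List.map_cons]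
    rw [← Dl_affine a b ds]
    congr 1
    funext w
    congr 2
    ring

theorem Dl_eq : ∀ (ds : List K) (f : K → M) (z : K)
    (_ : ∀ I : List K, I.Sublist ds → I.length < ds.length → f (z + I.sum) = 0),
    Dl ds f z = f (z + ds.sum)
  | [], f, z, _ => by simp [Dl]
  | d :: ds, f, z, h => by
    simp only [Dl]
    rw [Dl_eq ds _ z]
    · have h1 := h ds (List.sublist_cons_self _ _) (by simp)
      rw [h1, sub_zero, List.sum_cons]
      congr 1; ring
    · intro I hI hlen
      have h1 := h (d :: I) (hI.cons_cons _) (by simpa using hlen)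
      have h2 := h I (hI.cons _) (by simp; omega)
      rw [h2, sub_zero]
      rw [List.sum_cons] at h1
      rw [show z + I.sum + d = z + (d + I.sum) by ring]
      exact h1

/-- degree smaller than `m` -/
def Pol : ℕ → (K → M) → Prop
  | 0, f => ∀ z, f z = 0
  | m + 1, f => ∀ d, Pol m (fun z => f (z + d) - f z)

theorem Pol.dl : ∀ {ds : List K} {f : K → M}, Pol ds.length f → ∀ z, Dl ds f z = 0
  | [], f, h => h
  | d :: ds, f, h => fun z => Pol.dl (ds := ds) (h d) z

theorem Pol.zero : ∀ (m : ℕ), Pol m (fun _ : K => (0 : M))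
  | 0 => fun _ => rfl
  | m + 1 => fun d => by
    simp only [sub_self]; exact Pol.zero m

theorem Pol.succ : ∀ {m : ℕ} {f : K → M}, Pol m f → Pol (m + 1) f
  | 0, f, h => fun d z => by
    have h1 := h (z + d)
    have h2 := h z
    simp only [h1, h2, sub_self]
  | m + 1, f, h => fun d => Pol.succ (h d)

theorem Pol.add : ∀ {m : ℕ} {f g : K → M}, Pol m f → Pol m g → Pol m (fun z => f z + g z)
  | 0, f, g, hf, hg => fun z => by simp only [hf z, hg z, add_zero]
  | m + 1, f, g, hf, hg => fun d => by
    have := Pol.add (hf d) (hg d)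
    convert this using 2
    rw [add_sub_add_comm]

theorem Pol.hom {M' : Type} [AddCommGroup M'] (T : M →+ M') : ∀ {m : ℕ} {f : K → M}, Pol m f →
    Pol m (fun z => T (f z))
  | 0, f, hf => fun z => by simp only [hf z, map_zero]
  | m + 1, f, hf => fun d => by
    have := Pol.hom T (hf d)
    convert this using 2
    rw [map_sub]

theorem Pol.shift (e : K) : ∀ {m : ℕ} {f : K → M}, Pol m f → Pol m (fun z => f (z + e))
  | 0, f, hf => fun z => hf _
  | m + 1, f, hf => fun d => by
    have := Pol.shift e (hf d)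
    convert this using 4
    ring

end Diff

/-! ### Products of additive maps -/

section Prod

variable {K : Type} [Field K]

theorem Pol.const_mul (c : K) {m : ℕ} {f : K → K} (hf : Pol m f) : Pol m (fun z => c * f z) :=
  Pol.hom (AddMonoidHom.mulLeft c) hf

theorem Pol.mul_add (A : K →+ K) : ∀ {m : ℕ} {f : K → K}, Pol m f →
    Pol (m + 1) (fun z => A z * f z)
  | 0, _, hf => fun d z => by
    have h1 := hf (z + d)
    have h2 := hf z
    simp only [h1, h2, mul_zero, sub_self]
  | m + 1, f, hf => fun d => by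
    have h1 := Pol.mul_add A (hf d)
    have h2 := (Pol.shift d hf).const_mul (A d)
    have h3 := Pol.add h1 h2
    convert h3 using 2
    simp only [map_add]
    ring

theorem Pol.const (c : K) : Pol 1 (fun _ : K => c) := fun d z => sub_self _

theorem Pol.prod : ∀ (l : List (K →+ K)), Pol (l.length + 1) (fun z => (l.map fun A => A z).prod)
  | [] => Pol.const 1
  | A :: l => by
    have := Pol.mul_add A (Pol.prod l)
    rw [List.length_cons]
    simpa only [List.map_cons, List.prod_cons] using this

theorem Pol.finprod {ι : Type} [DecidableEq ι] (ρ : ι → K →+* K) (U : Finset ι) :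
    Pol (U.card + 1) (fun z => ∏ i ∈ U, ρ i z) := by
  induction U using Finset.induction_on with
  | empty => simpa using Pol.const (1 : K)
  | insert a U ha ih =>
    rw [Finset.card_insert_of_notMem ha]
    simp only [Finset.prod_insert ha]
    exact Pol.mul_add (ρ a : K →+ K) ih

/-- affine substitution changes a product of additive maps by a function of smaller degree -/
theorem Pol.finprod_shift {ι : Type} [DecidableEq ι] (ρ : ι → K →+* K) (a b : K) (U : Finset ι) :
    Pol U.card (fun z => ∏ i ∈ U, ρ i (a * z + b) - (∏ i ∈ U, ρ i a) * ∏ i ∈ U, ρ i z) := by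
  induction U using Finset.induction_on with
  | empty => intro z; simp
  | insert j U hj ih =>
    rw [Finset.card_insert_of_notMem hj]
    have h1 := Pol.mul_add ((AddMonoidHom.mulLeft (ρ j a)).comp (ρ j : K →+ K)) ih
    have h2 := ih.succ.const_mul (ρ j b)
    have h3 := (Pol.finprod ρ U).const_mul (ρ j b * ∏ i ∈ U, ρ i a)
    have h4 := Pol.add (Pol.add h1 h2) h3
    convert h4 using 2
    simp only [Finset.prod_insert hj, map_add, map_mul, AddMonoidHom.coe_comp, Function.comp,
      AddMonoidHom.coe_mulLeft, AddMonoidHom.coe_coe]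
    ring

theorem Pol.mul_self {m : ℕ} {f : K → K} (hf : Pol m f) : Pol (m + 1) (fun z => z * f z) :=
  Pol.mul_add (AddMonoidHom.id K) hf

theorem Pol.sub {m : ℕ} {f g : K → K} (hf : Pol m f) (hg : Pol m g) :
    Pol m (fun z => f z - g z) := by
  have := Pol.add hf (hg.const_mul (-1))
  convert this using 2
  ring

theorem Pol.full_shift {ι : Type} [DecidableEq ι] (ρ : ι → K →+* K) (a b : K) (U : Finset ι) :
    Pol (U.card + 1) (fun z => (a * z + b) * ∏ i ∈ U, ρ i (a * z + b) -
      (a * ∏ i ∈ U, ρ i a) * (z * ∏ i ∈ U, ρ i z)) := by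
  have h1 := (Pol.mul_self (Pol.finprod_shift ρ a b U)).const_mul a
  have h2 := (Pol.finprod_shift ρ a b U).succ.const_mul b
  have h3 := (Pol.finprod ρ U).const_mul (b * ∏ i ∈ U, ρ i a)
  have h4 := Pol.add (Pol.add h1 h2) h3
  convert h4 using 2
  ring

/-- replacing `ρ` by `ρ - 1` changes `z ∏ ρ z` by a function of smaller degree -/
theorem Pol.full_sub {ι : Type} [DecidableEq ι] [CharP K 2] (ρ : ι → K →+* K) (U : Finset ι) :
    Pol (U.card + 1) (fun z => z * ∏ i ∈ U, (ρ i z - z) - z * ∏ i ∈ U, ρ i z) := by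
  induction U using Finset.induction_on with
  | empty =>
    intro z d
    simp
  | insert j U hj ih =>
    rw [Finset.card_insert_of_notMem hj]
    have h1 := Pol.mul_add (ρ j : K →+ K) ih
    have h2 := Pol.mul_self ih
    have h3 := Pol.mul_add (frobenius K 2 : K →+ K) (Pol.finprod ρ U)
    have h4 := Pol.sub (Pol.sub h1 h2) h3
    convert h4 using 2
    simp only [Finset.prod_insert hj, AddMonoidHom.coe_coe, frobenius_def]
    ring

end Prod

/-! ### The property -/

section Property

variable {K : Type} [Field K] [Algebra (ZMod 2) K] {ι : Type} [DecidableEq ι]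

/-- the directions attached to a finite set of indices -/
noncomputable def dirs (ω : ι → K) (T : Finset ι) (b : K) : List K :=
  b :: (T.toList.map fun i => ω i * b)

theorem dirs_length (ω : ι → K) (T : Finset ι) (b : K) : (dirs ω T b).length = T.card + 1 := by
  simp [dirs]

/-- the subspace of functions whose iterated differences in the given directions vanish -/
def V (ω : ι → K) (𝒯 : Set (Finset ι)) : Submodule (ZMod 2) (K → ZMod 2) where
  carrier := {f | ∀ T ∈ 𝒯, ∀ b x, Dl (dirs ω T b) f x = 0}
  add_mem' := by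
    intro f g hf hg T hT b x
    have := Dl_add (dirs ω T b) f g x
    rw [hf T hT b x, hg T hT b x, add_zero] at this
    exact this
  zero_mem' := fun T _ b x => Dl_zero _ _
  smul_mem' := by
    intro c f hf T hT b x
    have := Dl_hom (AddMonoidHom.mulLeft c) (dirs ω T b) f x
    rw [hf T hT b x, map_zero] at this
    exact this

theorem mem_V {ω : ι → K} {𝒯 : Set (Finset ι)} {f : K → ZMod 2} :
    f ∈ V ω 𝒯 ↔ ∀ T ∈ 𝒯, ∀ b x, Dl (dirs ω T b) f x = 0 := Iff.rfl

theorem affine (ω : ι → K) (𝒯 : Set (Finset ι)) :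
    AffineInvariant (V ω 𝒯 : Set (K → ZMod 2)) := by
  refine ⟨⟨V ω 𝒯, rfl⟩, ?_⟩
  intro f hf a c _ T hT b x
  have h := hf T hT (a * b) (a * x + c)
  rw [Dl_affine]
  have e : (dirs ω T b).map (a * ·) = dirs ω T (a * b) := by
    simp only [dirs, List.map_cons, List.map_map, Function.comp_def]
    congr 2
    funext i
    ring
  rw [e]
  exact h

/-- local characterizations from families of point sets -/
theorem local_of {F K : Type} {k : ℕ} {P : Set (K → F)} (𝒟 : Set (Fin k → K))
    (h : ∀ f, (∀ α ∈ 𝒟, ∃ g ∈ P, ∀ i, g (α i) = f (α i)) → f ∈ P) : HasLocalChar k P := by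
  refine ⟨{C | C.pts ∈ 𝒟 ∧ C.S = {v | ∃ g ∈ P, ∀ i, g (C.pts i) = v i}}, fun f => ⟨?_, ?_⟩⟩
  · rintro hf C ⟨-, hC⟩
    unfold Constraint.Sat
    rw [hC]
    exact ⟨f, hf, fun _ => rfl⟩
  · intro hf
    apply h
    intro α hα
    by_cases hu : {v : Fin k → F | ∃ g ∈ P, ∀ i, g (α i) = v i} = Set.univ
    · have : (fun i => f (α i)) ∈ {v : Fin k → F | ∃ g ∈ P, ∀ i, g (α i) = v i} := by
        rw [hu]; trivial
      exact this
    · exact hf ⟨α, _, hu⟩ ⟨hα, rfl⟩

theorem local_V (ω : ι → K) (𝒯 : Set (Finset ι)) {w : ℕ} (h𝒯 : ∀ T ∈ 𝒯, T.card = w) :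
    HasLocalChar (2 ^ (w + 1)) (V ω 𝒯 : Set (K → ZMod 2)) := by
  refine local_of {α | ∃ T ∈ 𝒯, ∃ b x, ∀ I : List K, I.Sublist (dirs ω T b) →
    ∃ i, α i = x + I.sum} fun f hf => ?_
  intro T hT b x
  have hlen : (dirs ω T b).sublists.length = 2 ^ (w + 1) := by
    rw [List.length_sublists, dirs_length, h𝒯 T hT]
  obtain ⟨g, hg, hfg⟩ := hf (fun i => x + ((dirs ω T b).sublists[(i : ℕ)]'(by
    rw [hlen]; exact i.2)).sum) ⟨T, hT, b, x, fun I hI => by
      obtain ⟨n, hn, he⟩ := List.mem_iff_getElem.1 (List.mem_sublists.2 hI)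
      exact ⟨⟨n, by rw [← hlen]; exact hn⟩, by simp [he]⟩⟩
  rw [← hg T hT b x]
  apply Dl_congr
  intro I hI
  obtain ⟨n, hn, he⟩ := List.mem_iff_getElem.1 (List.mem_sublists.2 hI)
  have := hfg ⟨n, by rw [← hlen]; exact hn⟩
  simp only [he] at this
  exact this.symm

theorem mem_of_pol {ω : ι → K} {𝒯 : Set (Finset ι)} {w : ℕ} (h𝒯 : ∀ T ∈ 𝒯, T.card = w)
    {f : K → ZMod 2} (hf : Pol (w + 1) f) : f ∈ V ω 𝒯 := by
  intro T hT b x
  apply Pol.dl
  rw [dirs_length, h𝒯 T hT]
  exact hf

/-- the trace -/
noncomputable abbrev Tr : K →ₗ[ZMod 2] ZMod 2 := Algebra.trace (ZMod 2) K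

theorem trace_pol {m : ℕ} {f : K → K} (hf : Pol m f) : Pol m (fun z => Tr (f z)) :=
  Pol.hom (Tr (K := K)).toAddMonoidHom hf

theorem exists_trace [Finite K] {z : K} (hz : z ≠ 0) : ∃ c : K, Tr (c * z) ≠ 0 := by
  have : FiniteDimensional (ZMod 2) K := Module.Finite.of_finite
  have h := Algebra.trace_ne_zero (ZMod 2) K
  obtain ⟨w, hw⟩ : ∃ w, Tr w ≠ 0 := by
    by_contra hcon
    push Not at hcon
    exact h (LinearMap.ext hcon)
  exact ⟨w / z, by rwa [div_mul_cancel₀ _ hz]⟩

/-- a monomial whose index set contains an index outside `T` -/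
theorem mono_zero [CharP K 2] {ω : ι → K} {ρ : ι → K →+* K}
    (hfix : ∀ i j, i ≠ j → ρ i (ω j) = ω j) {T U : Finset ι} (hc : U.card = T.card) {i : ι}
    (hiU : i ∈ U) (hiT : i ∉ T) (c b x : K) :
    Dl (dirs ω T b) (fun z => Tr (c * (z * ∏ j ∈ U, ρ j z))) x = 0 := by
  by_cases hb : b = 0
  · subst hb
    simp only [dirs, Dl, add_zero, sub_self]
    exact Dl_zero _ _
  set κ : K := ρ i b / b with hκ
  set e : K := ρ i x - κ * x with he
  have hdir : ∀ d ∈ dirs ω T b, ρ i d = κ * d := by
    intro d hd
    simp only [dirs, List.mem_cons, List.mem_map, Finset.mem_toList] at hd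
    rcases hd with rfl | ⟨j, hj, rfl⟩
    · rw [hκ, div_mul_cancel₀ _ hb]
    · rw [map_mul, hfix i j (by rintro rfl; exact hiT hj), hκ]
      field_simp
  have hsum : ∀ I : List K, (∀ d ∈ I, ρ i d = κ * d) → ρ i I.sum = κ * I.sum := by
    intro I
    induction I with
    | nil => simp
    | cons a I ih =>
      intro h
      rw [List.sum_cons, map_add, h a (by simp), ih fun d hd => h d (by simp [hd])]
      ring
  have hpt : ∀ I : List K, I.Sublist (dirs ω T b) → ρ i (x + I.sum) = κ * (x + I.sum) + e := by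
    intro I hI
    rw [map_add, hsum I fun d hd => hdir d (hI.subset hd), he]
    ring
  have hcard : (U.erase i).card + 1 = U.card := Finset.card_erase_add_one hiU
  have h1 := Pol.mul_add (frobenius K 2 : K →+ K) (Pol.finprod ρ (U.erase i))
  have h2 := Pol.mul_self (Pol.finprod ρ (U.erase i))
  have h3 := Pol.add (h1.const_mul (c * κ)) (h2.const_mul (c * e))
  rw [hcard] at h3
  rw [Dl_congr (dirs ω T b) _ (fun z => Tr (c * κ * ((frobenius K 2 : K →+ K) z *
    ∏ j ∈ U.erase i, ρ j z) + c * e * (z * ∏ j ∈ U.erase i, ρ j z))) x]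
  · apply Pol.dl
    rw [dirs_length, ← hc]
    exact trace_pol h3
  · intro I hI
    congr 1
    rw [← Finset.mul_prod_erase _ _ hiU, hpt I hI, AddMonoidHom.coe_coe, frobenius_def]
    ring

/-- the monomial with index set `T` -/
theorem mono_ne [CharP K 2] [Finite K] {ω : ι → K} {ρ : ι → K →+* K}
    (hfix : ∀ i j, i ≠ j → ρ i (ω j) = ω j) (hmove : ∀ i, ρ i (ω i) ≠ ω i) (T : Finset ι) :
    ∃ c, Dl (dirs ω T 1) (fun z => Tr (c * (z * ∏ j ∈ T, ρ j z))) 0 ≠ 0 := by
  obtain ⟨c, hc⟩ := exists_trace (K := K) (z := ∏ i ∈ T, (ρ i (ω i) - ω i))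
    (Finset.prod_ne_zero_iff.2 fun i _ => sub_ne_zero.2 (hmove i))
  refine ⟨c, ?_⟩
  -- pass to the product of the `ρ - 1`
  have h1 := trace_pol ((Pol.full_sub ρ T).const_mul c)
  have h2 : Dl (dirs ω T 1) (fun z => Tr (c * (z * ∏ i ∈ T, (ρ i z - z) - z * ∏ i ∈ T, ρ i z))) 0
      = 0 := by
    apply Pol.dl
    rw [dirs_length]
    exact h1
  have h3 := Dl_add (dirs ω T 1) (fun z => Tr (c * (z * ∏ j ∈ T, ρ j z)))
    (fun z => Tr (c * (z * ∏ i ∈ T, (ρ i z - z) - z * ∏ i ∈ T, ρ i z))) 0
  rw [h2, add_zero] at h3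
  rw [← h3]
  have h4 : (fun z : K => Tr (c * (z * ∏ j ∈ T, ρ j z)) +
      Tr (c * (z * ∏ i ∈ T, (ρ i z - z) - z * ∏ i ∈ T, ρ i z))) =
      fun z => (Tr (K := K)).toAddMonoidHom (c * (z * ∏ i ∈ T, (ρ i z - z))) := by
    funext z
    rw [← map_add]
    simp only [LinearMap.toAddMonoidHom_coe]
    congr 1
    ring
  rw [h4, Dl_hom]
  simp only [dirs, Dl, mul_one, LinearMap.toAddMonoidHom_coe]
  have h5 : (fun z : K => c * ((z + 1) * ∏ i ∈ T, (ρ i (z + 1) - (z + 1))) -
      c * (z * ∏ i ∈ T, (ρ i z - z))) = fun z => c * ∏ i ∈ T, (ρ i z - z) := by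
    funext z
    have : ∀ i, ρ i (z + 1) - (z + 1) = ρ i z - z := fun i => by rw [map_add, map_one]; ring
    simp only [this]
    ring
  rw [h5]
  -- values at sums of directions
  have hval : ∀ i, ∀ l : List ι, i ∉ l → ρ i (l.map ω).sum - (l.map ω).sum = 0 := by
    intro i l
    induction l with
    | nil => simp
    | cons a l ih =>
      intro h
      rw [List.mem_cons, not_or] at h
      rw [List.map_cons, List.sum_cons, map_add, hfix i a h.1]
      linear_combination ih h.2
  rw [Dl_eq]
  · have h6 : ∀ i ∈ T, ρ i (0 + (T.toList.map ω).sum) - (0 + (T.toList.map ω).sum) =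
        ρ i (ω i) - ω i := by
      intro i hi
      rw [zero_add, Finset.sum_map_toList, ← Finset.add_sum_erase _ _ hi, map_add]
      have := hval i (T.erase i).toList (by simp)
      rw [Finset.sum_map_toList] at this
      linear_combination this
    rw [Finset.prod_congr rfl h6]
    exact hc
  · intro I hI hlen
    obtain ⟨J, hJ, rfl⟩ := List.sublist_map_iff.1 hI
    rw [List.length_map, List.length_map] at hlen
    obtain ⟨i, hi, hiJ⟩ : ∃ i ∈ T, i ∉ J := by
      by_contra hcon
      push Not at hcon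
      have h7 : T.toList.Subperm J := by
        apply List.subperm_of_subset T.nodup_toList
        intro i hi
        exact hcon i (Finset.mem_toList.1 hi)
      have := h7.length_le
      omega
    rw [Finset.prod_eq_zero hi, mul_zero]
    rw [zero_add]
    exact hval i J hiJ

/-- the index sets used for the lower bound -/
def TT (r u : ℕ) : Set (Finset (Fin r ⊕ Fin r)) :=
  {T | ∃ S : Finset (Fin r), S.card = u ∧ T = S.disjSum S}

theorem TT_card {r u : ℕ} : ∀ T ∈ TT r u, T.card = 2 * u := by
  rintro T ⟨S, hS, rfl⟩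
  rw [Finset.card_disjSum, hS, two_mul]

theorem lower [CharP K 2] [Finite K] {r u : ℕ} {ω : Fin r ⊕ Fin r → K}
    {ρ : Fin r ⊕ Fin r → K →+* K}
    (hfix : ∀ i j, i ≠ j → ρ i (ω j) = ω j) (hmove : ∀ i, ρ i (ω i) ≠ ω i)
    {n : ℕ} (hn : HasSingleOrbitChar n (V ω (TT r u) : Set (K → ZMod 2))) : r.choose u ≤ n := by
  classical
  by_contra hlt
  push Not at hlt
  obtain ⟨C, hC⟩ := hn
  let J : Type := {S : Finset (Fin r) // S.card = u}
  have hJ : Fintype.card J = r.choose u := by
    simp only [J, Fintype.card_finset_len, Fintype.card_fin]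
  have hdep : ¬ LinearIndependent K
      (fun S : J => fun i : Fin n => ∏ j ∈ S.1, ρ (Sum.inl j) (C.pts i)) := by
    intro h
    have := h.fintype_card_le_finrank
    rw [hJ] at this
    simp at this
    omega
  obtain ⟨g, hg, S₀, hS₀⟩ := Fintype.not_linearIndependent_iff.1 hdep
  -- the relation at each point
  have hrel : ∀ i, ∏ j ∈ S₀.1, ρ (Sum.inl j) (C.pts i) =
      ∑ S ∈ Finset.univ.erase S₀, (-(g S / g S₀)) * ∏ j ∈ S.1, ρ (Sum.inl j) (C.pts i) := by
    intro i
    have h1 := congrFun hg i
    simp only [Finset.sum_apply, Pi.smul_apply, smul_eq_mul, Pi.zero_apply] at h1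
    rw [← Finset.add_sum_erase _ _ (Finset.mem_univ S₀)] at h1
    have h2 : ∑ S ∈ Finset.univ.erase S₀, (-(g S / g S₀)) * ∏ j ∈ S.1, ρ (Sum.inl j) (C.pts i) =
        -(1 / g S₀) * ∑ S ∈ Finset.univ.erase S₀, g S * ∏ j ∈ S.1, ρ (Sum.inl j) (C.pts i) := by
      rw [Finset.mul_sum]
      refine Finset.sum_congr rfl fun s _ => ?_
      ring
    rw [h2]
    have h3 : ∑ S ∈ Finset.univ.erase S₀, g S * ∏ j ∈ S.1, ρ (Sum.inl j) (C.pts i) =
        -(g S₀ * ∏ j ∈ S₀.1, ρ (Sum.inl j) (C.pts i)) := by
      linear_combination h1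
    rw [h3]
    field_simp
  set T : Finset (Fin r ⊕ Fin r) := S₀.1.disjSum S₀.1 with hT
  have hTT : T ∈ TT r u := ⟨S₀.1, S₀.2, rfl⟩
  have hTc : T.card = 2 * u := TT_card T hTT
  obtain ⟨c, hc⟩ := mono_ne hfix hmove T
  set f₀ : K → ZMod 2 := fun z => Tr (c * (z * ∏ j ∈ T, ρ j z)) with hf₀
  have hnot : f₀ ∉ (V ω (TT r u) : Set (K → ZMod 2)) := fun h => hc (h T hTT 1 0)
  apply hnot
  refine (hC _).2 fun a b ha => ?_
  -- a member of the property that agrees with the function on the points
  let h : K → ZMod 2 :=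
    (fun z => Tr (c * ((a * z + b) * ∏ j ∈ T, ρ j (a * z + b) -
      (a * ∏ j ∈ T, ρ j a) * (z * ∏ j ∈ T, ρ j z)))) +
    ∑ S ∈ Finset.univ.erase S₀,
      fun z => Tr ((c * (a * ∏ j ∈ T, ρ j a) * (-(g S / g S₀))) *
        (z * ∏ j ∈ S.1.disjSum S₀.1, ρ j z))
  have hmem : h ∈ V ω (TT r u) := by
    refine Submodule.add_mem _ ?_ (Submodule.sum_mem _ fun S hS => ?_)
    · apply mem_of_pol TT_card
      rw [← hTc]
      exact trace_pol ((Pol.full_shift ρ a b T).const_mul c)
    · rintro T' ⟨S'', hS'', rfl⟩ d x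
      have hcard : (S.1.disjSum S₀.1).card = (S''.disjSum S'').card := by
        rw [Finset.card_disjSum, Finset.card_disjSum, S.2, S₀.2, hS'']
      have hne : S.1.disjSum S₀.1 ≠ S''.disjSum S'' := by
        intro heq
        have e1 : S.1 = S'' := by
          ext j
          rw [← Finset.inl_mem_disjSum (t := S₀.1), heq, Finset.inl_mem_disjSum]
        have e2 : S₀.1 = S'' := by
          ext j
          rw [← Finset.inr_mem_disjSum (s := S.1), heq, Finset.inr_mem_disjSum]
        exact (Finset.ne_of_mem_erase hS) (Subtype.ext (e1.trans e2.symm))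
      obtain ⟨i, hi, hi'⟩ : ∃ i ∈ S.1.disjSum S₀.1, i ∉ S''.disjSum S'' := by
        by_contra hcon
        push Not at hcon
        exact hne (Finset.eq_of_subset_of_card_le hcon hcard.ge)
      exact mono_zero hfix hcard hi hi' _ _ _
  have hsat := (hC h).1 hmem 1 0 one_ne_zero
  have heq : (fun i => f₀ (a * C.pts i + b)) = fun i => h (C.pts i) := by
    funext i
    simp only [h, Pi.add_apply, Finset.sum_apply, hf₀]
    have e1 : ∑ S ∈ Finset.univ.erase S₀, Tr ((c * (a * ∏ j ∈ T, ρ j a) * (-(g S / g S₀))) *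
        (C.pts i * ∏ j ∈ S.1.disjSum S₀.1, ρ j (C.pts i))) =
        Tr ((c * (a * ∏ j ∈ T, ρ j a)) * (C.pts i * ∏ j ∈ T, ρ j (C.pts i))) := by
      rw [← map_sum]
      congr 1
      rw [hT, Finset.prod_disjSum, Finset.prod_disjSum, hrel i, Finset.sum_mul, Finset.mul_sum,
        Finset.mul_sum]
      refine Finset.sum_congr rfl fun S _ => ?_
      rw [Finset.prod_disjSum]
      ring
    rw [e1, ← map_add]
    congr 1
    ring
  unfold Constraint.Sat Constraint.comp at hsat ⊢
  simp only [one_mul, add_zero] at hsat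
  simp only
  rw [heq]
  exact hsat

end Property

/-! ## The field -/

section Field

/-- in a finite field of characteristic two with `2 ^ t` elements, `t` divisible by the prime `q`,
there is an element of Frobenius period `q` -/
theorem exists_elt (t q : ℕ) (ht : 0 < t) (hq : q.Prime) (hqt : q ∣ t) :
    ∃ ω : GaloisField 2 t, ∀ m, iterateFrobenius (GaloisField 2 t) 2 m ω = ω ↔ q ∣ m := by
  have hcard : Nat.card (GaloisField 2 t) = 2 ^ t := GaloisField.card 2 t ht.ne'
  have hfin : Finite (GaloisField 2 t) := inferInstance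
  have := Fintype.ofFinite (GaloisField 2 t)
  -- an element of order `2 ^ q - 1`
  have hunits : Nat.card (GaloisField 2 t)ˣ = 2 ^ t - 1 := by
    rw [Nat.card_units, hcard]
  have hdvd : 2 ^ q - 1 ∣ Nat.card (GaloisField 2 t)ˣ := by
    rw [hunits]
    exact Nat.pow_sub_one_dvd_pow_sub_one 2 hqt
  obtain ⟨u, hu⟩ := IsCyclic.exists_ofOrder_eq_natCard (α := (GaloisField 2 t)ˣ)
  obtain ⟨d, hd⟩ := hdvd
  have h2q : 2 ≤ q := hq.two_le
  have h4 : 4 ≤ 2 ^ q := by
    calc 4 = 2 ^ 2 := by norm_num
      _ ≤ 2 ^ q := Nat.pow_le_pow_right (by norm_num) h2q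
  have hd0 : d ≠ 0 := by
    rintro rfl
    have : 0 < Nat.card (GaloisField 2 t)ˣ := Nat.card_pos
    omega
  set v := u ^ d with hv
  have hov : orderOf v = 2 ^ q - 1 := by
    rw [hv, orderOf_pow_of_dvd hd0 (by rw [hu, hd]; exact Dvd.intro_left _ rfl), hu, hd,
      Nat.mul_div_cancel _ (Nat.pos_of_ne_zero hd0)]
  refine ⟨(v : GaloisField 2 t), fun m => ?_⟩
  have hper : ∀ m, iterateFrobenius (GaloisField 2 t) 2 m (v : GaloisField 2 t) = v ↔
      Function.IsPeriodicPt (frobenius (GaloisField 2 t) 2) m (v : GaloisField 2 t) := by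
    intro m
    rw [Function.IsPeriodicPt, Function.IsFixedPt, ← coe_iterateFrobenius]
  have hq1 : Function.IsPeriodicPt (frobenius (GaloisField 2 t) 2) q (v : GaloisField 2 t) := by
    rw [← hper, iterateFrobenius_def]
    have h5 : v ^ (2 ^ q - 1) = 1 := by rw [← hov]; exact pow_orderOf_eq_one v
    have h6 : v ^ (2 ^ q) = v := by
      have : 2 ^ q = (2 ^ q - 1) + 1 := by omega
      rw [this, pow_succ, h5, one_mul]
    have h7 := congrArg (Units.val) h6
    simpa using h7
  have hne : ¬ Function.IsPeriodicPt (frobenius (GaloisField 2 t) 2) 1 (v : GaloisField 2 t) := by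
    intro h8
    rw [← hper, iterateFrobenius_def] at h8
    have h9 : v ^ 2 = v := by
      apply Units.ext
      simpa using h8
    have h10 : v = 1 := by
      have : v * v = v * 1 := by rw [← pow_two, h9, mul_one]
      exact mul_left_cancel this
    rw [h10, orderOf_one] at hov
    omega
  have hmin : Function.minimalPeriod (frobenius (GaloisField 2 t) 2) (v : GaloisField 2 t) = q := by
    rcases (Nat.dvd_prime hq).1 hq1.minimalPeriod_dvd with h11 | h11
    · exfalso
      apply hne
      rw [Function.isPeriodicPt_iff_minimalPeriod_dvd, h11]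
    · exact h11
  rw [hper, Function.isPeriodicPt_iff_minimalPeriod_dvd, hmin]


theorem lower_main (t : ℕ) (ht : 0 < t) (u : ℕ) :
    ∃ P : Set (GaloisField 2 t → ZMod 2), AffineInvariant P ∧ HasLocalChar (2 ^ (2 * u + 1)) P ∧
      ∀ k', HasSingleOrbitChar k' P → (t.primeFactors.card / 2).choose u ≤ k' := by
  classical
  set r := t.primeFactors.card / 2 with hr
  obtain ⟨e⟩ : Nonempty (Fin r ⊕ Fin r ↪ {q // q ∈ t.primeFactors}) := by
    apply Function.Embedding.nonempty_of_card_le
    rw [Fintype.card_sum, Fintype.card_fin, Fintype.card_coe]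
    omega
  have hω : ∀ i, ∃ ω : GaloisField 2 t, ∀ m, iterateFrobenius (GaloisField 2 t) 2 m ω = ω ↔
      (e i).1 ∣ m := fun i =>
    exists_elt t (e i).1 ht (Nat.prime_of_mem_primeFactors (e i).2)
      (Nat.dvd_of_mem_primeFactors (e i).2)
  choose ω hω using hω
  let m : Fin r ⊕ Fin r → ℕ := fun i => ∏ l ∈ t.primeFactors.erase (e i).1, l
  let ρ : Fin r ⊕ Fin r → GaloisField 2 t →+* GaloisField 2 t := fun i =>
    iterateFrobenius (GaloisField 2 t) 2 (m i)
  have hkey : ∀ i j, ρ i (ω j) = ω j ↔ i ≠ j := by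
    intro i j
    simp only [ρ]
    rw [hω j]
    have hp := Nat.prime_of_mem_primeFactors (e j).2
    constructor
    · intro h hij
      subst hij
      obtain ⟨l, hl, hd⟩ := (Prime.dvd_finsetProd_iff hp.prime _).1 h
      have h1 := (Nat.prime_dvd_prime_iff_eq hp
        (Nat.prime_of_mem_primeFactors (Finset.mem_of_mem_erase hl))).1 hd
      exact (Finset.ne_of_mem_erase hl) h1.symm
    · intro h
      refine Finset.dvd_prod_of_mem _ (Finset.mem_erase.2 ⟨?_, (e j).2⟩)
      intro h1
      exact h (e.injective (Subtype.ext h1)).symm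
  refine ⟨V ω (TT r u), affine _ _, local_V _ _ TT_card, fun k' hk' => ?_⟩
  exact lower (ρ := ρ) (fun i j hij => (hkey i j).2 hij) (fun i h => (hkey i i).1 h rfl) hk'

end Field


/-! ## The upper bound -/

section Upper

variable {F K : Type} [Field F] [Field K]

theorem Dl_smul (c : F) : ∀ (ds : List K) (f : K → F) (z : K),
    Dl ds (fun w => c * f w) z = c * Dl ds f z
  | [], f, z => rfl
  | d :: ds, f, z => by
    simp only [Dl]
    rw [← Dl_smul c ds]
    congr 1
    funext w
    ring

theorem elim (a₁ : K) : ∀ (L : List (K × K)) (T : Set K) (g : K → K → F)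
    (_ : ∀ x ∈ T, ∀ y, g a₁ (a₁ * x + y) + (L.map fun p => g p.1 (p.1 * x + y)).sum = 0)
    (x : K) (_ : ∀ I : List (K × K), I.Sublist L → x + (I.map Prod.snd).sum ∈ T) (y : K),
    Dl (L.map fun p => (a₁ - p.1) * p.2) (g a₁) (a₁ * x + y) = 0
  | [], T, g, hyp, x, hx, y => by
    have h1 := hyp x (by simpa using hx [] (List.Sublist.refl _)) y
    simp only [List.map_nil, List.sum_nil, add_zero] at h1
    simp only [List.map_nil, Dl]
    exact h1
  | (b, h) :: L, T, g, hyp, x, hx, y => by
    have key := elim a₁ L {x | x ∈ T ∧ x + h ∈ T}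
      (fun a z => g a (z + (a - b) * h) - g a z) ?_ x ?_ y
    · simpa only [List.map_cons, Dl] using key
    · rintro x ⟨hx1, hx2⟩ y
      have e1 := hyp x hx1 y
      have e2 := hyp (x + h) hx2 (y - b * h)
      simp only [List.map_cons, List.sum_cons] at e1 e2
      have e3 : ∀ a, a * (x + h) + (y - b * h) = a * x + y + (a - b) * h := fun a => by ring
      simp only [e3] at e2
      have e4 : (L.map fun p => g p.1 (p.1 * x + y + (p.1 - b) * h) - g p.1 (p.1 * x + y)).sum =
          (L.map fun p => g p.1 (p.1 * x + y + (p.1 - b) * h)).sum -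
          (L.map fun p => g p.1 (p.1 * x + y)).sum := by
        have gen : ∀ (l : List (K × K)) (u v : K × K → F),
            (l.map fun p => u p - v p).sum = (l.map u).sum - (l.map v).sum := by
          intro l u v
          induction l with
          | nil => simp
          | cons a l ih => simp only [List.map_cons, List.sum_cons, ih]; ring
        exact gen _ _ _
      rw [e4]
      have e5 : g b (b * x + y + (b - b) * h) = g b (b * x + y) := by
        congr 1; ring
      rw [e5] at e2
      linear_combination e2 - e1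
    · intro I hI
      refine ⟨hx I (hI.cons _), ?_⟩
      have h1 := hx ((b, h) :: I) (hI.cons_cons _)
      simp only [List.map_cons, List.sum_cons] at h1
      have e : x + (I.map Prod.snd).sum + h = x + (h + (I.map Prod.snd).sum) := by ring
      rw [e]; exact h1

theorem exists_shift [Finite K] (l : List K) (h : 2 ^ l.length < Nat.card K) :
    ∃ x : K, ∀ I : List K, I.Sublist l → x + I.sum ≠ 0 := by
  classical
  have := Fintype.ofFinite K
  let B : Finset K := (l.sublists.map fun I => -I.sum).toFinset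
  have hB : B.card < Fintype.card K := by
    refine (List.toFinset_card_le _).trans_lt ?_
    rw [List.length_map, List.length_sublists, ← Nat.card_eq_fintype_card]
    exact h
  obtain ⟨x, hx⟩ : ∃ x, x ∉ B := by
    by_contra hcon
    push Not at hcon
    have : B = Finset.univ := Finset.eq_univ_iff_forall.2 hcon
    rw [this, Finset.card_univ] at hB
    exact lt_irrefl _ hB
  refine ⟨x, fun I hI h0 => hx ?_⟩
  rw [List.mem_toFinset, List.mem_map]
  exact ⟨I, List.mem_sublists.2 hI, by linear_combination -h0⟩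

/-- a local linear relation, invariant under the affine maps, forces a polynomial -/
theorem diff_zero [Finite K] (A : Finset K) (μ : K → F) (hμ : ∀ a ∈ A, μ a ≠ 0) (hA : A.Nonempty)
    (hcard : 2 ^ (A.card - 1) < Nat.card K) (f : K → F)
    (hf : ∀ x, x ≠ 0 → ∀ y, ∑ a ∈ A, μ a * f (a * x + y) = 0) (ds : List K)
    (hds : ds.length = A.card - 1) (z : K) : Dl ds f z = 0 := by
  classical
  obtain ⟨a₁, ha₁⟩ := hA
  set l : List K := (A.erase a₁).toList with hl
  have hlen : l.length = ds.length := by
    rw [hl, Finset.length_toList, Finset.card_erase_of_mem ha₁, hds]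
  set hs : List K := List.zipWith (fun b d => d / (a₁ - b)) l ds with hhs
  have hslen : hs.length = ds.length := by
    rw [hhs, List.length_zipWith, hlen, min_self]
  set L : List (K × K) := l.zip hs with hL
  have hL1 : L.map Prod.fst = l := by
    rw [hL, List.map_fst_zip]; omega
  have hL2 : L.map Prod.snd = hs := by
    rw [hL, List.map_snd_zip]; omega
  have hds' : L.map (fun p => (a₁ - p.1) * p.2) = ds := by
    apply List.ext_getElem
    · rw [List.length_map, hL, List.length_zip, hlen, hslen, min_self]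
    · intro i h1 h2
      have hi : i < l.length := by omega
      simp only [List.getElem_map, hL, List.getElem_zip, hhs, List.getElem_zipWith]
      have hne : a₁ - l[i] ≠ 0 := by
        rw [sub_ne_zero]
        intro h
        have : l[i] ∈ (A.erase a₁).toList := List.getElem_mem hi
        rw [Finset.mem_toList, ← h] at this
        exact absurd this (Finset.notMem_erase _ _)
      field_simp
  obtain ⟨x, hx⟩ := exists_shift hs (by rw [hslen, hds]; exact hcard)
  have key := elim a₁ L {x | x ≠ 0} (fun a w => μ a * f w) ?_ x ?_ (z - a₁ * x)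
  · rw [hds', Dl_smul] at key
    have : a₁ * x + (z - a₁ * x) = z := by ring
    rw [this] at key
    exact (mul_eq_zero.1 key).resolve_left (hμ _ ha₁)
  · intro x hx y
    have h1 := hf x hx y
    rw [← Finset.add_sum_erase _ _ ha₁] at h1
    have h2 : (L.map fun p => μ p.1 * f (p.1 * x + y)).sum =
        ∑ a ∈ A.erase a₁, μ a * f (a * x + y) := by
      have : (L.map fun p => μ p.1 * f (p.1 * x + y)) =
          (L.map Prod.fst).map fun a => μ a * f (a * x + y) := by
        rw [List.map_map]; rfl
      rw [this, hL1, hl, Finset.sum_map_toList]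
    rw [h2]; exact h1
  · intro I hI
    have h1 : (I.map Prod.snd).Sublist hs := by rw [← hL2]; exact hI.map _
    exact hx _ h1

theorem exists_list {p : ℕ} [Fact p.Prime] [Algebra (ZMod p) K] [FiniteDimensional (ZMod p) K]
    {n : ℕ} (e : Module.Basis (Fin n) (ZMod p) K) (z : K) : ∃ l : List (Fin n), (l.map e).sum = z := by
  have hz : z ∈ Submodule.span (ZMod p) (Set.range e) := by rw [e.span_eq]; trivial
  induction hz using Submodule.span_induction with
  | mem x hx =>
    obtain ⟨i, rfl⟩ := hx
    exact ⟨[i], by simp⟩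
  | zero => exact ⟨[], rfl⟩
  | add x y _ _ hx hy =>
    obtain ⟨l₁, rfl⟩ := hx
    obtain ⟨l₂, rfl⟩ := hy
    exact ⟨l₁ ++ l₂, by simp⟩
  | smul a x _ hx =>
    obtain ⟨l, rfl⟩ := hx
    refine ⟨(List.replicate a.val l).flatten, ?_⟩
    have h1 : a • (l.map e).sum = a.val • (l.map e).sum := by
      conv_lhs => rw [← ZMod.natCast_zmod_val a]
      rw [Nat.cast_smul_eq_nsmul]
    rw [h1]
    generalize a.val = m
    induction m with
    | zero => simp
    | succ m ih =>
      rw [List.replicate_succ, List.flatten_cons, List.map_append, List.sum_append, ih, succ_nsmul']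

theorem zero_of_zero {p : ℕ} [Fact p.Prime] [Algebra (ZMod p) K] [FiniteDimensional (ZMod p) K]
    {n : ℕ} (e : Module.Basis (Fin n) (ZMod p) K) (d : ℕ) (f : K → F)
    (hf : ∀ ds : List K, ds.length = d + 1 → ∀ z, Dl ds f z = 0)
    (h0 : ∀ l : List (Fin n), l.length ≤ d → f (l.map e).sum = 0) : ∀ z, f z = 0 := by
  have key : ∀ m : ℕ, ∀ l : List (Fin n), l.length = m → f (l.map e).sum = 0 := by
    intro m
    induction m using Nat.strong_induction_on with
    | _ m ih =>
      intro l hl
      by_cases hm : m ≤ d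
      · exact h0 l (by omega)
      · have e1 : l = l.take (d + 1) ++ l.drop (d + 1) := (List.take_append_drop _ _).symm
        have e2 : (l.take (d + 1)).length = d + 1 := by rw [List.length_take]; omega
        have e3 : (l.drop (d + 1)).length = m - (d + 1) := by rw [List.length_drop]; omega
        have h1 := hf ((l.take (d + 1)).map e) (by rw [List.length_map, e2])
          ((l.drop (d + 1)).map e).sum
        rw [Dl_eq] at h1
        · have e4 : (l.map e).sum = ((l.drop (d + 1)).map e).sum + ((l.take (d + 1)).map e).sum := by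
            conv_lhs => rw [e1]
            rw [List.map_append, List.sum_append, add_comm]
          rw [e4]; exact h1
        · intro I hI hlen
          obtain ⟨J, hJ, rfl⟩ := List.sublist_map_iff.1 hI
          have e5 : ((l.drop (d + 1)).map e).sum + (J.map e).sum =
              ((l.drop (d + 1) ++ J).map e).sum := by
            rw [List.map_append, List.sum_append]
          rw [e5]
          rw [List.length_map, List.length_map, e2] at hlen
          exact ih ((l.drop (d + 1) ++ J).length) (by rw [List.length_append, e3]; omega) _ rfl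
  intro z
  obtain ⟨l, rfl⟩ := exists_list e z
  exact key _ l rfl

theorem finrank_le {p : ℕ} [Fact p.Prime] [Algebra (ZMod p) K] [FiniteDimensional (ZMod p) K]
    [Finite K] {n : ℕ} (e : Module.Basis (Fin n) (ZMod p) K) (d : ℕ) (W : Submodule F (K → F))
    (hW : ∀ f ∈ W, ∀ ds : List K, ds.length = d + 1 → ∀ z, Dl ds f z = 0) :
    Module.finrank F W ≤ (n + 1) ^ d := by
  classical
  have := Fintype.ofFinite K
  let e' : Option (Fin n) → K := fun o => o.elim 0 e
  let pt : (Fin d → Option (Fin n)) → K := fun w => ∑ j, e' (w j)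
  let Φ : W →ₗ[F] ((Fin d → Option (Fin n)) → F) := (LinearMap.funLeft F F pt).comp W.subtype
  have hinj : Function.Injective Φ := by
    rw [injective_iff_map_eq_zero]
    rintro ⟨f, hf⟩ h
    have h1 : ∀ w, f (pt w) = 0 := fun w => congrFun h w
    apply Subtype.ext
    funext z
    refine zero_of_zero e d f (hW f hf) (fun l hl => ?_) z
    have h2 := h1 (fun j => l[(j : ℕ)]?)
    have h3 : pt (fun j => l[(j : ℕ)]?) = (l.map e).sum := by
      simp only [pt]
      clear h2 h1 h Φ
      have gen : ∀ (l : List (Fin n)) (d : ℕ), l.length ≤ d →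
          ∑ j : Fin d, e' (l[(j : ℕ)]?) = (l.map e).sum := by
        intro l
        induction l with
        | nil => intro d _; simp [e']
        | cons a l ih =>
          intro d hd
          obtain ⟨d, rfl⟩ : ∃ d', d = d' + 1 := ⟨d - 1, by simp at hd; omega⟩
          rw [Fin.sum_univ_succ]
          simp only [Fin.val_zero, List.getElem?_cons_zero, Fin.val_succ, List.getElem?_cons_succ,
            List.map_cons, List.sum_cons]
          rw [ih d (by simp at hd; omega)]
          rfl
      exact gen l d hl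
    rw [h3] at h2
    exact h2
  have h1 := LinearMap.finrank_le_finrank_of_injective hinj
  refine h1.trans ?_
  rw [Module.finrank_fintype_fun_eq_card]
  simp


/-- the functions all of whose affine images agree on the points `α` with a member of `P` -/
def Qo (P : Submodule F (K → F)) {n : ℕ} (α : Fin n → K) : Submodule F (K → F) where
  carrier := {f | ∀ a b : K, a ≠ 0 → (fun i => f (a * α i + b)) ∈ P.map (LinearMap.funLeft F F α)}
  add_mem' := fun hf hg a b ha => Submodule.add_mem _ (hf a b ha) (hg a b ha)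
  zero_mem' := fun _ _ _ => Submodule.zero_mem _
  smul_mem' := fun c _ hf a b ha => Submodule.smul_mem _ c (hf a b ha)

theorem Qo_append (P : Submodule F (K → F)) {m n : ℕ} (β : Fin m → K) (α : Fin n → K) :
    Qo P (Fin.append β α) ≤ Qo P β ⊓ Qo P α := by
  intro f hf
  refine ⟨fun a b ha => ?_, fun a b ha => ?_⟩
  · obtain ⟨g, hg, hgf⟩ := hf a b ha
    refine ⟨g, hg, funext fun i => ?_⟩
    have := congrFun hgf (Fin.castAdd n i)
    simpa [LinearMap.funLeft_apply] using this
  · obtain ⟨g, hg, hgf⟩ := hf a b ha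
    refine ⟨g, hg, funext fun i => ?_⟩
    have := congrFun hgf (Fin.natAdd m i)
    simpa [LinearMap.funLeft_apply] using this

theorem exists_sep {k : ℕ} {P : Submodule F (K → F)} (h : HasLocalChar k (P : Set (K → F)))
    {f : K → F} (hf : f ∉ P) : ∃ α : Fin k → K, f ∉ Qo P α := by
  obtain ⟨𝒞, h𝒞⟩ := h
  have h1 := (not_congr (h𝒞 f)).1 hf
  push Not at h1
  obtain ⟨C, hC, hCf⟩ := h1
  refine ⟨C.pts, fun hq => hCf ?_⟩
  obtain ⟨g, hg, hgf⟩ := hq 1 0 one_ne_zero
  have hs := (h𝒞 g).1 hg C hC
  have h2 : (fun i => g (C.pts i)) = fun i => f (C.pts i) := by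
    funext i
    have := congrFun hgf i
    simpa [LinearMap.funLeft_apply] using this
  unfold Constraint.Sat at hs ⊢
  rw [← h2]
  exact hs

theorem exists_tuple [Finite K] {k : ℕ} {P : Submodule F (K → F)}
    (h : HasLocalChar k (P : Set (K → F))) : ∀ (d m : ℕ) (β : Fin m → K),
    Module.finrank F (Qo P β) ≤ d → ∃ (n : ℕ) (γ : Fin n → K), n ≤ m + k * d ∧ Qo P γ ≤ P := by
  intro d
  induction d with
  | zero =>
    intro m β hd
    refine ⟨m, β, by omega, ?_⟩
    have : Qo P β = ⊥ := Submodule.finrank_eq_zero.1 (by omega)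
    rw [this]
    exact bot_le
  | succ d ih =>
    intro m β hd
    by_cases hle : Qo P β ≤ P
    · exact ⟨m, β, by omega, hle⟩
    · obtain ⟨f, hf, hfP⟩ := Set.not_subset.1 hle
      obtain ⟨α, hα⟩ := exists_sep h hfP
      have hlt : Qo P (Fin.append β α) < Qo P β := by
        refine lt_of_le_of_ne ((Qo_append P β α).trans inf_le_left) fun heq => hα ?_
        have h1 := (Qo_append P β α).trans inf_le_right
        rw [heq] at h1
        exact h1 hf
      have h2 := Submodule.finrank_lt_finrank_of_lt hlt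
      obtain ⟨n, γ, hn, hγ⟩ := ih (m + k) (Fin.append β α) (by omega)
      exact ⟨n, γ, by rw [Nat.mul_succ]; omega, hγ⟩

/-- the dimension bound -/
theorem finrank_Qo_le [Finite K] {p : ℕ} [Fact p.Prime] [Algebra (ZMod p) K]
    [FiniteDimensional (ZMod p) K] {n k : ℕ} (e : Module.Basis (Fin n) (ZMod p) K)
    (P : Submodule F (K → F)) (α : Fin k → K) (hne : Qo P α ≠ ⊤) (hcard : 2 ^ (k - 1) < Nat.card K) :
    Module.finrank F (Qo P α) ≤ (n + 1) ^ (k - 2) := by
  classical
  apply finrank_le e (k - 2)
  -- a functional vanishing on the restriction of `P`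
  obtain ⟨f₀, hf₀⟩ : ∃ f₀, f₀ ∉ Qo P α := by
    by_contra hcon
    push Not at hcon
    exact hne (eq_top_iff.2 fun f _ => hcon f)
  obtain ⟨a₀, b₀, -, hab⟩ : ∃ a b : K, a ≠ 0 ∧
      (fun i => f₀ (a * α i + b)) ∉ P.map (LinearMap.funLeft F F α) := by
    by_contra hcon
    push Not at hcon
    exact hf₀ hcon
  obtain ⟨l, hl, hker⟩ := Submodule.exists_le_ker_of_notMem hab
  set c : Fin k → F := fun i => l (fun j => if i = j then 1 else 0) with hc
  have hlsum : ∀ v : Fin k → F, l v = ∑ i, v i * c i := fun v => by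
    rw [LinearMap.pi_apply_eq_sum_univ l v]
    simp only [smul_eq_mul, hc]
  set μ : K → F := fun a => ∑ i with α i = a, c i with hμ
  set A : Finset K := (Finset.univ.image α).filter fun a => μ a ≠ 0 with hA
  have hAk : A.card ≤ k := by
    refine (Finset.card_filter_le _ _).trans (Finset.card_image_le.trans ?_)
    simp
  have hsum : ∀ g : K → F, l (fun i => g (α i)) = ∑ a ∈ A, μ a * g a := by
    intro g
    rw [hlsum, hA, Finset.sum_filter_of_ne]
    · rw [← Finset.sum_fiberwise_of_maps_to (g := α) (t := Finset.univ.image α)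
        (fun i _ => Finset.mem_image_of_mem _ (Finset.mem_univ i))]
      refine Finset.sum_congr rfl fun a _ => ?_
      rw [hμ, Finset.sum_mul]
      refine Finset.sum_congr rfl fun i hi => ?_
      rw [(Finset.mem_filter.1 hi).2, mul_comm]
    · intro a _ h h0
      exact h (by rw [h0, zero_mul])
  have hAne : A.Nonempty := by
    rw [Finset.nonempty_iff_ne_empty]
    intro h0
    apply hl
    have := hsum (fun z => f₀ (a₀ * z + b₀))
    rw [h0, Finset.sum_empty] at this
    exact this
  have hApos := hAne.card_pos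
  intro f hf ds hds z
  have hf' : ∀ x, x ≠ 0 → ∀ y, ∑ a ∈ A, μ a * f (a * x + y) = 0 := by
    intro x hx y
    have h1 := hker (hf x y hx)
    rw [LinearMap.mem_ker] at h1
    have h2 := hsum (fun z => f (x * z + y))
    rw [h1] at h2
    rw [h2]
    refine Finset.sum_congr rfl fun a _ => ?_
    rw [mul_comm a x]
  have hcA : 2 ^ (A.card - 1) < Nat.card K :=
    lt_of_le_of_lt (Nat.pow_le_pow_right (by norm_num) (by omega)) hcard
  have key := diff_zero A μ (fun a ha => (Finset.mem_filter.1 ha).2) hAne hcA f hf'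
    (ds.take (A.card - 1)) (by rw [List.length_take]; omega)
  rw [← List.take_append_drop (A.card - 1) ds, Dl_append]
  have h3 : Dl (ds.take (A.card - 1)) f = fun _ => (0 : F) := funext key
  rw [h3]
  exact Dl_zero _ _

/-- a one-orbit characterization from a tuple -/
theorem single_of_tuple {P : Submodule F (K → F)}
    (hinv : ∀ f ∈ P, ∀ a b : K, a ≠ 0 → (fun x => f (a * x + b)) ∈ P) (hP : P ≠ ⊤) {n : ℕ}
    (γ : Fin n → K) (hγ : Qo P γ ≤ P) : HasSingleOrbitChar n (P : Set (K → F)) := by
  refine ⟨⟨γ, P.map (LinearMap.funLeft F F γ), fun h => hP ?_⟩, fun f => ⟨fun hf a b ha => ?_,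
    fun hf => ?_⟩⟩
  · have htop : (⊤ : Submodule F (K → F)) ≤ Qo P γ := by
      intro f _ a b ha
      have : (fun i => f (a * γ i + b)) ∈ (P.map (LinearMap.funLeft F F γ) : Set (Fin n → F)) := by
        rw [h]; trivial
      exact this
    exact eq_top_iff.2 (htop.trans hγ)
  · exact ⟨_, hinv f hf a b ha, rfl⟩
  · exact hγ fun a b ha => hf a b ha

/-- the set of all functions -/
theorem single_univ : HasSingleOrbitChar 2 (Set.univ : Set (K → F)) := by
  refine ⟨⟨fun _ => 0, {v | v 0 = v 1}, fun h => ?_⟩, fun f => ?_⟩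
  · have : (Pi.single 0 1 : Fin 2 → F) ∈ {v : Fin 2 → F | v 0 = v 1} := by rw [h]; trivial
    simp at this
  · simp [Constraint.Sat, Constraint.comp]

/-- every proper affine-invariant property has a single-orbit characterization on all points -/
theorem exists_single [Finite K] {P : Set (K → F)}
    (hP : AffineInvariant P) (hne : P ≠ Set.univ) : HasSingleOrbitChar (Nat.card K) P := by
  let e := (Finite.equivFin K).symm
  refine ⟨⟨e, {v | (fun x => v (e.symm x)) ∈ P}, ?_⟩, fun f => ?_⟩
  · intro h
    apply hne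
    rw [Set.eq_univ_iff_forall]
    intro f
    have : (fun i => f (e i)) ∈ {v : Fin (Nat.card K) → F | (fun x => v (e.symm x)) ∈ P} := by
      rw [h]; trivial
    simpa using this
  · unfold Constraint.Sat Constraint.comp
    simp only [Set.mem_ofPred_eq, Equiv.apply_symm_apply]
    constructor
    · intro hf a b ha
      exact hP.invariant f hf a b ha
    · intro h
      simpa using h 1 0 one_ne_zero

theorem upper_main [Finite K] {p n k : ℕ} (hp : p.Prime) (hcard : Nat.card K = p ^ n) (hk : 0 < k)
    {P : Set (K → F)} (hP : AffineInvariant P) (hloc : HasLocalChar k P) :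
    ∃ k' ≤ k * ((n + 1) ^ (k - 2) + 1), HasSingleOrbitChar k' P := by
  obtain ⟨⟨P, rfl⟩, hinv⟩ := hP
  have h1 : 1 ≤ (n + 1) ^ (k - 2) := Nat.one_le_pow _ _ (by omega)
  have h2 : 2 ≤ k * ((n + 1) ^ (k - 2) + 1) := by nlinarith
  by_cases hu : P = ⊤
  · subst hu
    exact ⟨2, h2, by simpa using single_univ (F := F) (K := K)⟩
  have hn : n ≠ 0 := by
    rintro rfl
    have : 1 < Nat.card K := Finite.one_lt_card
    rw [hcard, pow_zero] at this
    omega
  by_cases hsmall : Nat.card K ≤ 2 ^ (k - 1)
  · refine ⟨Nat.card K, hsmall.trans ?_, exists_single ⟨⟨P, rfl⟩, hinv⟩ fun h => hu ?_⟩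
    · have hk1 : k ≠ 1 := by
        rintro rfl
        have : 1 < Nat.card K := Finite.one_lt_card
        simp at hsmall
        omega
      obtain ⟨k, rfl⟩ : ∃ j, k = j + 2 := ⟨k - 2, by omega⟩
      have h3 : 2 ^ k ≤ (n + 1) ^ k := Nat.pow_le_pow_left (by omega) k
      have e1 : k + 2 - 1 = k + 1 := by omega
      have e2 : k + 2 - 2 = k := by omega
      rw [e1, e2, pow_succ]
      calc 2 ^ k * 2 ≤ (n + 1) ^ k * (k + 2) := Nat.mul_le_mul h3 (by omega)
        _ ≤ (k + 2) * ((n + 1) ^ k + 1) := by rw [mul_comm]; exact Nat.mul_le_mul_left _ (by omega)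
    · rw [eq_top_iff]
      intro f _
      have : f ∈ (P : Set (K → F)) := by rw [h]; trivial
      exact this
  push Not at hsmall
  -- the characteristic
  have : Fact p.Prime := ⟨hp⟩
  have hchar : CharP K p := by
    obtain ⟨q, hq⟩ := CharP.exists K
    have := Fintype.ofFinite K
    obtain ⟨m, hq', hm⟩ := FiniteField.card K q
    rw [← Nat.card_eq_fintype_card, hcard] at hm
    have hd : q ∣ p ^ n := by rw [hm]; exact dvd_pow_self q m.ne_zero
    have : q = p := (Nat.prime_dvd_prime_iff_eq hq' hp).1 (hq'.dvd_of_dvd_pow hd)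
    rwa [← this]
  let _ : Algebra (ZMod p) K := ZMod.algebra K p
  have : FiniteDimensional (ZMod p) K := Module.Finite.of_finite
  have hfr : Module.finrank (ZMod p) K = n := by
    have h4 : Nat.card K = Nat.card (ZMod p) ^ Module.finrank (ZMod p) K :=
      Module.natCard_eq_pow_finrank
    rw [hcard, Nat.card_zmod] at h4
    exact (Nat.pow_right_injective hp.two_le h4).symm
  let e : Module.Basis (Fin n) (ZMod p) K := Module.finBasisOfFinrankEq (ZMod p) K hfr
  obtain ⟨f, hf⟩ : ∃ f, f ∉ P := by
    by_contra hcon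
    push Not at hcon
    exact hu (eq_top_iff.2 fun f _ => hcon f)
  obtain ⟨α, hα⟩ := exists_sep hloc hf
  have hne : Qo P α ≠ ⊤ := by
    intro h
    apply hα
    rw [h]
    trivial
  obtain ⟨m, γ, hm, hγ⟩ := exists_tuple hloc _ k α (finrank_Qo_le e P α hne hsmall)
  refine ⟨m, ?_, single_of_tuple hinv hu γ hγ⟩
  rw [Nat.mul_succ]
  omega

end Upper

/-! ## The results -/

/-- there are numbers with many prime divisors -/
theorem exists_many (N : ℕ) : ∃ t, 0 < t ∧ N < t.primeFactors.card / 2 := by
  classical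
  let s : Finset ℕ := (Finset.range (2 * N + 2)).image (Nat.nth Nat.Prime)
  have hs : s.card = 2 * N + 2 := by
    rw [Finset.card_image_of_injective _ (Nat.nth_injective Nat.infinite_setOfPred_prime),
      Finset.card_range]
  have hp : ∀ q ∈ s, q.Prime := by
    intro q hq
    obtain ⟨i, -, rfl⟩ := Finset.mem_image.1 hq
    exact Nat.prime_nth_prime i
  refine ⟨∏ q ∈ s, q, Finset.prod_pos fun q hq => (hp q hq).pos, ?_⟩
  rw [Nat.primeFactors_prod hp, hs]
  omega

/-- **Bounds for `k'(P)`.** Lower bound for all `𝔽_{2^t}`, upper bound for all `F`, `K`, and the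
resulting negative answer to Q1 (hence to Q2). -/
theorem result :
    (∀ t u : ℕ, 0 < t → ∃ P : Set (GaloisField 2 t → ZMod 2), AffineInvariant P ∧
      HasLocalChar (2 ^ (2 * u + 1)) P ∧ (t.primeFactors.card / 2).choose u ≤ kPrime P) ∧
    (∀ (F K : Type) [Field F] [Finite F] [Field K] [Finite K] [Algebra F K] (p n k : ℕ)
      (P : Set (K → F)), p.Prime → Nat.card K = p ^ n → 0 < k → AffineInvariant P →
      HasLocalChar k P → HasSingleOrbitChar (kPrime P) P ∧
        kPrime P ≤ k * ((n + 1) ^ (k - 2) + 1)) ∧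
    (¬ ∃ g : ℕ → ℕ → ℕ, ∀ (F K : Type) [Field F] [Finite F] [Field K] [Finite K] [Algebra F K]
      (k : ℕ) (P : Set (K → F)), AffineInvariant P → HasLocalChar k P →
        kPrime P ≤ g k (Nat.card F)) := by
  have hlow : ∀ t u : ℕ, 0 < t → ∃ P : Set (GaloisField 2 t → ZMod 2), AffineInvariant P ∧
      HasLocalChar (2 ^ (2 * u + 1)) P ∧ (t.primeFactors.card / 2).choose u ≤ kPrime P := by
    intro t u ht
    obtain ⟨P, hP, hloc, hk⟩ := lower_main t ht u
    refine ⟨P, hP, hloc, hk _ ?_⟩
    obtain ⟨k', -, hk'⟩ := upper_main Nat.prime_two (GaloisField.card 2 t ht.ne')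
      (Nat.pos_of_ne_zero (by positivity)) hP hloc
    have hmem : k' ∈ {k | HasSingleOrbitChar k P} := hk'
    exact Nat.sInf_mem ⟨k', hmem⟩
  refine ⟨hlow, ?_, ?_⟩
  · intro F K _ _ _ _ _ p n k P hp hcard hk hP hloc
    obtain ⟨k', hle, hk'⟩ := upper_main hp hcard hk hP hloc
    have hmem : k' ∈ {k | HasSingleOrbitChar k P} := hk'
    exact ⟨Nat.sInf_mem ⟨k', hmem⟩, (Nat.sInf_le hmem).trans hle⟩
  · rintro ⟨g, hg⟩
    obtain ⟨t, ht, hN⟩ := exists_many (g (2 ^ (2 * 1 + 1)) (Nat.card (ZMod 2)))
    obtain ⟨P, hP, hloc, hk⟩ := hlow t 1 ht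
    have := hg (ZMod 2) (GaloisField 2 t) _ P hP hloc
    rw [Nat.choose_one_right] at hk
    omega

end Pool.Agent.Results.MP_cb1103_lc.SingleOrbitBounds
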